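import Mathlib

namespace Pool.Agent.MP_047cd2_co

/-- The Euclidean plane. -/
abbrev Plane : Type := EuclideanSpace ℝ (Fin 2)

/-- The triangles spanned by `P`: vertex sets of three non-collinear points of `P`. -/
def triangles (P : Set Plane) : Set (Set Plane) :=
  {t | ∃ p ∈ P, ∃ q ∈ P, ∃ r ∈ P, t = {p, q, r} ∧ ¬ Collinear ℝ ({p, q, r} : Set Plane)}

/-- Two point sets are congruent when an isometry of the plane maps one onto the other. -/
def Cong (s t : Set Plane) : Prop := ∃ φ : Plane ≃ᵢ Plane, φ '' s = t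

/-- The number of congruence classes of triangles spanned by `P`. -/
noncomputable def numTri (P : Set Plane) : ℕ :=
  Set.ncard {K : Set (Set Plane) | ∃ s ∈ triangles P, K = {t | t ∈ triangles P ∧ Cong s t}}

/-- The lattice section of all `u a + v b` with integers `0 ≤ u, v < √n`. -/
def sect (a b : Plane) (n : ℕ) : Set Plane :=
  {x | ∃ u v : ℤ, 0 ≤ u ∧ (u : ℝ) < √(n : ℝ) ∧ 0 ≤ v ∧ (v : ℝ) < √(n : ℝ) ∧
    x = (u : ℝ) • a + (v : ℝ) • b}

/-- The lower limit, in the extended reals, of the number of triangle classes over `n ^ 2`. -/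
noncomputable def lowerDensity (a b : Plane) : EReal :=
  Filter.liminf (fun n : ℕ => (((numTri (sect a b n) : ℝ) / (n : ℝ) ^ 2 : ℝ) : EReal))
    Filter.atTop

end Pool.Agent.MP_047cd2_co
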